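import Pool.Agent.Helper76.SNW.Graph

/-!
# Second neighbourhoods in orientations of bidense graphs

If all pairs of vertex sets of size at least `m` have density between `p₁ > 0` and `p₂` up to a
small error, then every orientation with all out-degrees at least `C m` has a vertex whose second
out-neighbourhood is at least `(2 - p₂) / p₂ - θ` times as large as its out-neighbourhood.
-/

namespace Pool.Agent.Results.MP_5d193c_co.BidenseHosts

theorem result (p₁ p₂ θ : ℝ) (hp₁ : 0 < p₁) (hp : p₁ ≤ p₂) (hp₂ : p₂ ≤ 1) (hθ : 0 < θ) :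
    ∃ ε C : ℝ, 0 < ε ∧ 0 < C ∧
      ∀ (V : Type) [Fintype V] [Nonempty V] (G : SimpleGraph V) (m : ℝ), 1 ≤ m →
        (∀ A B : Finset V,
          p₁ * A.card * B.card - ε * (max (max (A.card : ℝ) B.card) m) ^ 2 ≤
            ({q : V × V | q.1 ∈ A ∧ q.2 ∈ B ∧ G.Adj q.1 q.2}.ncard : ℝ) ∧
          ({q : V × V | q.1 ∈ A ∧ q.2 ∈ B ∧ G.Adj q.1 q.2}.ncard : ℝ) ≤
            p₂ * A.card * B.card + ε * (max (max (A.card : ℝ) B.card) m) ^ 2) →
        ∀ D : V → V → Prop, (∀ u v, G.Adj u v ↔ (D u v ∨ D v u)) → (∀ u v, D u v → ¬ D v u) →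
          (∀ v, C * m ≤ ({w | D v w}.ncard : ℝ)) →
          ∃ v, ((2 - p₂) / p₂ - θ) * ({w | D v w}.ncard : ℝ) ≤
            ({w | w ≠ v ∧ ¬ D v w ∧ ∃ u, D v u ∧ D u w}.ncard : ℝ) := by
  classical
  obtain ⟨ε, C, hε, hC, h⟩ := Helper76.SNW.bidense_graph hp₁ hp hp₂ hθ
  refine ⟨ε, C, hε, hC, ?_⟩
  intro V _ _ G m hm hJ
  apply h V G m hm
  intro A B
  have e : ({q : V × V | q.1 ∈ A ∧ q.2 ∈ B ∧ G.Adj q.1 q.2}.ncard : ℝ) =
      ∑ a ∈ A, ∑ b ∈ B, (if G.Adj a b then (1 : ℝ) else 0) := by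
    have e1 : ({q : V × V | q.1 ∈ A ∧ q.2 ∈ B ∧ G.Adj q.1 q.2} : Set (V × V)) =
        (((A ×ˢ B).filter (fun q => G.Adj q.1 q.2) : Finset (V × V)) : Set (V × V)) := by
      ext q
      simp [and_assoc]
    rw [e1, Set.ncard_coe_finset, Finset.card_filter, Finset.sum_product]
    push_cast
    rfl
  rw [← e]
  exact hJ A B

end Pool.Agent.Results.MP_5d193c_co.BidenseHosts
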