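import Pool.Agent.Helper76.SNW.Graph
import Pool.Agent.Helper83.SNProb2

/-!
# Second neighbourhoods in orientations of inhomogeneous random graphs

The pairs `i < j` are edges independently, with arbitrary probabilities `π i j` in `[p₁, p₂]`.
With probability tending to 1, uniformly in `π`, every orientation with all out-degrees at least
`C log n` has a vertex whose second out-neighbourhood is at least `(2 - p₂) / p₂ - θ` times as
large as its out-neighbourhood.
-/

namespace Pool.Agent.Results.MP_5d193c_co.InhomogeneousRandomGraphs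

open Classical in
/-- The probability that a random graph on `Fin n` has the property `P`, when the pairs `i < j`
are edges independently with probabilities `π i j`. -/
noncomputable def edgeProb (n : ℕ) (π : Fin n → Fin n → ℝ) (P : SimpleGraph (Fin n) → Prop) : ℝ :=
  ∑ G : SimpleGraph (Fin n) with P G,
    ∏ q : Fin n × Fin n with q.1 < q.2, (if G.Adj q.1 q.2 then π q.1 q.2 else 1 - π q.1 q.2)

theorem result (p₁ p₂ θ : ℝ) (hp₁ : 0 < p₁) (hp : p₁ ≤ p₂) (hp₂ : p₂ ≤ 1) (hθ : 0 < θ) :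
    ∃ C : ℝ, ∀ η : ℝ, 0 < η → ∃ n₀ : ℕ, ∀ n : ℕ, n₀ ≤ n →
      ∀ π : Fin n → Fin n → ℝ, (∀ i j, p₁ ≤ π i j ∧ π i j ≤ p₂) →
        1 - η ≤ edgeProb n π (fun G => ∀ D : Fin n → Fin n → Prop,
          (∀ u v, G.Adj u v ↔ (D u v ∨ D v u)) → (∀ u v, D u v → ¬ D v u) →
          (∀ v, C * Real.log n ≤ ({w | D v w}.ncard : ℝ)) →
          ∃ v, ((2 - p₂) / p₂ - θ) * ({w | D v w}.ncard : ℝ) ≤
            ({w | w ≠ v ∧ ¬ D v w ∧ ∃ u, D v u ∧ D u w}.ncard : ℝ)) := by
  classical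
  obtain ⟨ε, C₁, hε, hC₁, h⟩ := Helper76.SNW.bidense_graph hp₁ hp hp₂ hθ
  obtain ⟨C₂, hC₂, h2⟩ := SNInh.biJ_whp hp₁.le hp hp₂ hε
  refine ⟨C₁ * max C₂ 1, ?_⟩
  intro η hη
  obtain ⟨n₀, hn₀⟩ := h2 (max C₂ 1) (le_max_left _ _) η hη
  refine ⟨max n₀ 3, ?_⟩
  intro n hn π hπ
  have hn1 : n₀ ≤ n := le_trans (le_max_left _ _) hn
  have hn3 : 3 ≤ n := le_trans (le_max_right _ _) hn
  refine (hn₀ n hn1 π hπ).trans ?_
  show _ ≤ SNInh.prob n π _
  apply SNInh.prob_mono (fun i j => ⟨hp₁.le.trans (hπ i j).1, (hπ i j).2.trans hp₂⟩)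
  intro G hG D hor has hd
  have : Nonempty (Fin n) := ⟨⟨0, by omega⟩⟩
  have hlog : 1 ≤ Real.log n := by
    have h3 : (3 : ℝ) ≤ n := by exact_mod_cast hn3
    rw [Real.le_log_iff_exp_le (by linarith)]
    have := Real.exp_one_lt_d9
    linarith
  have hm : 1 ≤ max C₂ 1 * Real.log n := by
    have h4 : 1 ≤ max C₂ 1 := le_max_right _ _
    calc (1 : ℝ) = 1 * 1 := by ring
      _ ≤ max C₂ 1 * Real.log n := mul_le_mul h4 hlog (by norm_num) (by linarith)
  exact h (Fin n) G (max C₂ 1 * Real.log n) hm hG D hor has (by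
    intro v
    have := hd v
    rwa [mul_assoc] at this)

end Pool.Agent.Results.MP_5d193c_co.InhomogeneousRandomGraphs
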