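import Mathlib
import Pool.Agent.Helper35.SNCycA
import Pool.Agent.Helper35.SNCycB
import Pool.Agent.Helper35.SNCycC

/-!
# MP_5d193c_co: oriented graphs without long directed cycles, or with two vertices of small
out-degree, in the out-neighbourhoods
-/

open Finset

namespace Pool.Agent.Results.MP_5d193c_co.LocalCycles

/-- `D` has a directed cycle of length `n` all of whose vertices lie in `H`: distinct vertices
`a, l₁, …, l_{n-1}` of `H` with arcs `a → l₁ → ⋯ → l_{n-1} → a`. -/
def HasCycleIn {V : Type} (D : V → V → Prop) (H : Finset V) (n : ℕ) : Prop :=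
  ∃ (a : V) (l : List V), (a :: l).Nodup ∧ List.IsChain D (a :: (l ++ [a])) ∧
    (a :: l).length = n ∧ ∀ x ∈ a :: l, x ∈ H

open Classical in
/-- The out-neighbours of `v`. -/
noncomputable def out {V : Type} [Fintype V] (D : V → V → Prop) (v : V) : Finset V :=
  univ.filter (fun x => D v x)

open Classical in
/-- The vertices at distance exactly two from `v`. -/
noncomputable def sec {V : Type} [Fintype V] (D : V → V → Prop) (v : V) : Finset V :=
  univ.filter (fun x => x ≠ v ∧ ¬ D v x ∧ ∃ u, D v u ∧ D u x)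

open Classical in
/-- The common out-neighbours of `v` and `z`. -/
noncomputable def common {V : Type} [Fintype V] (D : V → V → Prop) (v z : V) : Finset V :=
  (out D v).filter (fun x => D z x)

theorem result : ∀ (m : ℕ), 4 ≤ m →
    ∀ (V : Type) [Fintype V] [Nonempty V] (D : V → V → Prop),
    (∀ u v, D u v → ¬ D v u) →
    (∀ v, (∀ w, (out D v).card ≤ (out D w).card) → (out D v).Nonempty →
      (∃ H : Finset V, H.Nonempty ∧ H ⊆ out D v ∧
        (∀ a ∈ H, ∀ b ∈ out D v, D a b → b ∈ H) ∧ (∀ n, m ≤ n → ¬ HasCycleIn D H n)) ∨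
      (∃ z ∈ out D v, ∃ y ∈ out D v, y ∈ sec D z ∧
        (common D v z).card ≤ m - 3 ∧ (common D v y).card ≤ m - 2)) →
    ∃ v, (∀ w, (out D v).card ≤ (out D w).card) ∧
      (out D v).card ≤ (sec D v).card + (m - 4) := by
  intro m hm V _ _ D hD hloc
  obtain ⟨t, rfl⟩ : ∃ t, m = t + 3 := ⟨m - 3, by omega⟩
  have ht : 1 ≤ t := by omega
  have key := SNCyc.local_parts t ht V D hD (by
    intro v hv hne
    rcases hloc v hv hne with ⟨H, h1, h2, h3, h4⟩ | ⟨z, hz, y, hy, h1, h2, h3⟩
    · refine Or.inl ⟨H, h1, h2, fun a ha b hvb hab => h3 a ha b (SNCyc.mem_out.2 hvb) hab, ?_⟩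
      intro a l hnd hch hH
      by_contra hlen
      exact h4 (a :: l).length (by omega) ⟨a, l, hnd, hch, rfl, hH⟩
    · refine Or.inr ⟨z, y, SNCyc.mem_out.1 hz, SNCyc.mem_out.1 hy, h1, ?_, ?_⟩
      · change (common D v z).card ≤ t
        omega
      · change (common D v y).card ≤ t + 1
        omega)
  obtain ⟨v, h1, h2⟩ := key
  refine ⟨v, h1, ?_⟩
  change (SNCyc.out D v).card ≤ (SNCyc.sec D v).card + (t + 3 - 4)
  omega

end Pool.Agent.Results.MP_5d193c_co.LocalCycles
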