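import Mathlib
import Pool.Agent.Helper35.SNCore

/-!
# MP_5d193c_co: small cores

`D` is a relation on a finite type `V`; `D[A]` is its restriction to `A`.
`outN D A v` and `secN D A v` are the first and the second out-neighbourhood of `v` in `D[A]`,
`bdry D A B` is the out-boundary of `B` in `D[A]`, and `rest D A B` the set of the vertices of `A`
neither in `B` nor in `bdry D A B` (see `Pool/Agent/Helper35/SNCore.lean`).
-/

open Finset SNCore

namespace Pool.Agent.Results.MP_5d193c_co.SmallCores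

/-- For `B = {v}`: the boundary is inside the out-neighbourhood. -/
theorem bdry_singleton {V : Type} (D : V → V → Prop) (A : Finset V) (v : V) :
    bdry D A {v} ⊆ outN D A v := by
  intro x hx
  rw [mem_bdry] at hx
  obtain ⟨hxA, _, s, hs, hsx⟩ := hx
  rw [mem_singleton] at hs
  subst hs
  exact mem_outN.2 ⟨hxA, hsx⟩

/-- `A` is the disjoint union of `{v}`, the boundary and the rest. -/
theorem sum_split {V : Type} {M : Type} [AddCommMonoid M] (D : V → V → Prop) (A : Finset V)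
    (v : V) (hv : v ∈ A) (w : V → M) :
    ∑ x ∈ A, w x = w v + (∑ x ∈ bdry D A {v}, w x + ∑ x ∈ rest D A {v}, w x) := by
  classical
  have h1 : A = insert v (bdry D A {v} ∪ rest D A {v}) := by
    ext x
    rw [mem_insert, mem_union, mem_bdry, mem_rest]
    constructor
    · intro hx
      by_cases hxv : x = v
      · exact Or.inl hxv
      · right
        by_cases h : D v x
        · left; exact ⟨hx, by simpa using hxv, v, mem_singleton_self v, h⟩
        · right; exact ⟨hx, by simpa using hxv, by simpa using h⟩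
    · rintro (h | h | h)
      · exact h ▸ hv
      · exact h.1
      · exact h.1
  have h2 : v ∉ bdry D A {v} ∪ rest D A {v} := by
    rw [mem_union, mem_bdry, mem_rest]; simp
  have h3 : Disjoint (bdry D A {v}) (rest D A {v}) := by
    rw [Finset.disjoint_left]
    intro x hx hx'
    rw [mem_bdry] at hx
    rw [mem_rest] at hx'
    obtain ⟨_, _, s, hs, hsx⟩ := hx
    exact hx'.2.2 s hs hsx
  conv_lhs => rw [h1]
  rw [Finset.sum_insert h2, Finset.sum_union h3]

/-- Factor `1`, integer weights. -/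
theorem core_one {V : Type} [Fintype V] (D : V → V → Prop) (w : V → ℕ) (v : V) :
    ∃ A : Finset V, A.Nonempty ∧
      ∑ x ∈ A, w x ≤ w v + (∑ x ∈ outN D univ v, w x + 1).choose 2 ∧
      (∀ x ∈ A, ∑ y ∈ secN D A x, w y + ∑ y ∈ outN D univ x, w y
          ≤ ∑ y ∈ secN D univ x, w y + ∑ y ∈ outN D A x, w y) ∧
      (∀ B ⊆ A, B.Nonempty → B ≠ A →
        ∃ W ⊆ bdry D A B, ∑ x ∈ fresh D A B W, w x < ∑ x ∈ W, w x) ∧
      (∀ B ⊆ A, B.Nonempty → ∑ x ∈ rest D A B, w x ≤ (∑ x ∈ bdry D A B, w x).choose 2) ∧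
      (∀ x ∈ A, ∑ y ∈ A, w y ≤ w x + (∑ y ∈ outN D A x, w y + 1).choose 2) := by
  classical
  have hw : ∀ x : V, (0 : ℝ) ≤ (fun x => (w x : ℝ)) x := fun x => Nat.cast_nonneg _
  obtain ⟨A₁, hvA₁, hHall₁, hA₁w⟩ := closure_one D w _ {v} le_rfl
  rw [singleton_subset_iff] at hvA₁
  obtain ⟨A, hAA₁, hAne, hA, hcore⟩ := exists_core D 1 (fun x => (w x : ℝ)) hw A₁ ⟨v, hvA₁⟩ hHall₁
  have hquad : ∀ B ⊆ A, B.Nonempty →
      ∑ x ∈ rest D A B, w x ≤ (∑ x ∈ bdry D A B, w x).choose 2 :=
    fun B hB hBne => core_quadratic D w A hcore _ B hB hBne le_rfl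
  have hviol : ∀ B ⊆ A, B.Nonempty → B ≠ A →
      ∃ W ⊆ bdry D A B, ∑ x ∈ fresh D A B W, w x < ∑ x ∈ W, w x := by
    intro B hB hBne hBA
    have hnot : ¬ Hall D 1 (fun x => (w x : ℝ)) A B := fun h => hBA (hcore B hB hBne h)
    unfold Hall at hnot
    push Not at hnot
    obtain ⟨W, hW, hlt⟩ := hnot
    rw [one_mul] at hlt
    exact ⟨W, hW, by exact_mod_cast hlt⟩
  refine ⟨A, hAne, ?_, ?_, hviol, hquad, ?_⟩
  · have h1 : ∑ x ∈ A, w x ≤ ∑ x ∈ A₁, w x := Finset.sum_le_sum_of_subset hAA₁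
    have h2 : ∑ x ∈ bdry D univ {v}, w x ≤ ∑ x ∈ outN D univ v, w x :=
      Finset.sum_le_sum_of_subset (bdry_singleton D univ v)
    have h3 : (∑ x ∈ bdry D univ {v}, w x + 1).choose 2
        ≤ (∑ x ∈ outN D univ v, w x + 1).choose 2 := Nat.choose_le_choose 2 (by omega)
    rw [Finset.sum_singleton] at hA₁w
    omega
  · intro x hx
    have h := transfer D 1 (fun x => (w x : ℝ)) hw A hA x hx
    have h' : (∑ y ∈ secN D A x, (w y : ℝ)) + ∑ y ∈ outN D univ x, (w y : ℝ)
        ≤ ∑ y ∈ secN D univ x, (w y : ℝ) + ∑ y ∈ outN D A x, (w y : ℝ) := by linarith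
    exact_mod_cast h'
  · intro x hx
    rw [sum_split D A x hx w]
    have h1 := hquad {x} (by simpa using hx) (singleton_nonempty x)
    have h2 : ∑ y ∈ bdry D A {x}, w y ≤ ∑ y ∈ outN D A x, w y :=
      Finset.sum_le_sum_of_subset (bdry_singleton D A x)
    have h3 : (∑ y ∈ bdry D A {x}, w y).choose 2 ≤ (∑ y ∈ outN D A x, w y).choose 2 :=
      Nat.choose_le_choose 2 h2
    have h4 : (∑ y ∈ outN D A x, w y + 1).choose 2
        = (∑ y ∈ outN D A x, w y).choose 1 + (∑ y ∈ outN D A x, w y).choose 2 :=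
      Nat.choose_succ_succ' _ 1
    rw [Nat.choose_one_right] at h4
    omega

/-- Factor `g < 1`, real weights. -/
theorem core_lt_one {V : Type} [Fintype V] (D : V → V → Prop) (w : V → ℝ) (g : ℝ) (v : V)
    (hw : ∀ x, 0 ≤ w x) (hg0 : 0 ≤ g) (hg : g < 1) :
    ∃ A : Finset V, A.Nonempty ∧
      (1 - g) * (∑ x ∈ A, w x - w v) ≤ ∑ x ∈ outN D univ v, w x ∧
      (∀ x ∈ A, ∑ y ∈ secN D A x, w y - g * ∑ y ∈ outN D A x, w y
          ≤ ∑ y ∈ secN D univ x, w y - g * ∑ y ∈ outN D univ x, w y) ∧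
      (∀ B ⊆ A, B.Nonempty → B ≠ A →
        ∃ W ⊆ bdry D A B, ∑ x ∈ fresh D A B W, w x < g * ∑ x ∈ W, w x) ∧
      (∀ B ⊆ A, B.Nonempty → B ≠ A →
        (1 - g) * ∑ x ∈ rest D A B, w x < g * ∑ x ∈ bdry D A B, w x) ∧
      (∀ x ∈ A, A ≠ {x} → (1 - g) * (∑ y ∈ A, w y - w x) < ∑ y ∈ outN D A x, w y) := by
  classical
  obtain ⟨A₁, hvA₁, hHall₁, hA₁w⟩ := closure_linear D g w hw _ {v} le_rfl
  rw [singleton_subset_iff] at hvA₁
  obtain ⟨A, hAA₁, hAne, hA, hcore⟩ := exists_core D g w hw A₁ ⟨v, hvA₁⟩ hHall₁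
  have hlin : ∀ B ⊆ A, B.Nonempty → B ≠ A →
      (1 - g) * ∑ x ∈ rest D A B, w x < g * ∑ x ∈ bdry D A B, w x :=
    fun B hB hBne hBA => (core_linear D g hg0 hg w hw A hcore _ B hB hBne le_rfl).2 hBA
  have hviol : ∀ B ⊆ A, B.Nonempty → B ≠ A →
      ∃ W ⊆ bdry D A B, ∑ x ∈ fresh D A B W, w x < g * ∑ x ∈ W, w x := by
    intro B hB hBne hBA
    have hnot : ¬ Hall D g w A B := fun h => hBA (hcore B hB hBne h)
    unfold Hall at hnot
    push Not at hnot
    exact hnot
  refine ⟨A, hAne, ?_, fun x hx => transfer D g w hw A hA x hx, hviol, hlin, ?_⟩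
  · have h1 : ∑ x ∈ A, w x ≤ ∑ x ∈ A₁, w x :=
      Finset.sum_le_sum_of_subset_of_nonneg hAA₁ (fun x _ _ => hw x)
    have h2 : ∑ x ∈ bdry D univ {v}, w x ≤ ∑ x ∈ outN D univ v, w x :=
      Finset.sum_le_sum_of_subset_of_nonneg (bdry_singleton D univ v) (fun x _ _ => hw x)
    rw [Finset.sum_singleton] at hA₁w
    nlinarith
  · intro x hx hne
    have h1 := hlin {x} (by simpa using hx) (singleton_nonempty x) (fun h => hne h.symm)
    have h2 : ∑ y ∈ bdry D A {x}, w y ≤ ∑ y ∈ outN D A x, w y :=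
      Finset.sum_le_sum_of_subset_of_nonneg (bdry_singleton D A x) (fun x _ _ => hw x)
    rw [sum_split D A x hx w]
    nlinarith

/-- The first out-neighbourhood in `D[A]`, read on the subtype. -/
theorem card_outN_sub {V : Type} (D : V → V → Prop) (A : Finset V) (a : {x // x ∈ A}) :
    (outN (fun p q : {x // x ∈ A} => D p.1 q.1) univ a).card = (outN D A a.1).card := by
  classical
  rw [← Finset.card_map (Function.Embedding.subtype _)]
  congr 1
  ext x
  rw [mem_map, mem_outN]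
  constructor
  · rintro ⟨y, hy, rfl⟩
    rw [mem_outN] at hy
    exact ⟨y.2, hy.2⟩
  · rintro ⟨hx, hax⟩
    exact ⟨⟨x, hx⟩, mem_outN.2 ⟨mem_univ _, hax⟩, rfl⟩

/-- The second out-neighbourhood in `D[A]`, read on the subtype. -/
theorem card_secN_sub {V : Type} (D : V → V → Prop) (A : Finset V) (a : {x // x ∈ A}) :
    (secN (fun p q : {x // x ∈ A} => D p.1 q.1) univ a).card = (secN D A a.1).card := by
  classical
  rw [← Finset.card_map (Function.Embedding.subtype _)]
  congr 1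
  ext x
  rw [mem_map, mem_secN]
  constructor
  · rintro ⟨y, hy, rfl⟩
    rw [mem_secN] at hy
    obtain ⟨_, hya, hn, u, _, hu1, hu2⟩ := hy
    exact ⟨y.2, fun h => hya (Subtype.ext h), hn, u.1, u.2, hu1, hu2⟩
  · rintro ⟨hx, hxa, hn, u, hu, hu1, hu2⟩
    exact ⟨⟨x, hx⟩, mem_secN.2 ⟨mem_univ _, fun h => hxa (congrArg Subtype.val h), hn,
      ⟨u, hu⟩, mem_univ _, hu1, hu2⟩, rfl⟩

/-- The out-boundary in `D[A]`, read on the subtype. -/
theorem card_bdry_sub {V : Type} (D : V → V → Prop) (A : Finset V) (B : Finset {x // x ∈ A}) :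
    (bdry (fun p q : {x // x ∈ A} => D p.1 q.1) univ B).card
      = (bdry D A (B.map (Function.Embedding.subtype _))).card := by
  classical
  rw [← Finset.card_map (Function.Embedding.subtype _)]
  congr 1
  ext x
  rw [mem_map, mem_bdry]
  constructor
  · rintro ⟨y, hy, rfl⟩
    rw [mem_bdry] at hy
    obtain ⟨_, hyB, s, hs, hsy⟩ := hy
    refine ⟨y.2, ?_, s.1, mem_map.2 ⟨s, hs, rfl⟩, hsy⟩
    intro h
    obtain ⟨z, hz, hzy⟩ := mem_map.1 h
    exact hyB ((Subtype.ext hzy : z = y) ▸ hz)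
  · rintro ⟨hx, hxB, s, hs, hsx⟩
    obtain ⟨t, ht, rfl⟩ := mem_map.1 hs
    exact ⟨⟨x, hx⟩, mem_bdry.2 ⟨mem_univ _, fun h => hxB (mem_map.2 ⟨_, h, rfl⟩), t, ht, hsx⟩, rfl⟩

/-- The rest in `D[A]`, read on the subtype. -/
theorem card_rest_sub {V : Type} (D : V → V → Prop) (A : Finset V) (B : Finset {x // x ∈ A}) :
    (rest (fun p q : {x // x ∈ A} => D p.1 q.1) univ B).card
      = (rest D A (B.map (Function.Embedding.subtype _))).card := by
  classical
  rw [← Finset.card_map (Function.Embedding.subtype _)]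
  congr 1
  ext x
  rw [mem_map, mem_rest]
  constructor
  · rintro ⟨y, hy, rfl⟩
    rw [mem_rest] at hy
    obtain ⟨_, hyB, hn⟩ := hy
    refine ⟨y.2, ?_, ?_⟩
    · intro h
      obtain ⟨z, hz, hzy⟩ := mem_map.1 h
      exact hyB ((Subtype.ext hzy : z = y) ▸ hz)
    · intro s hs
      obtain ⟨t, ht, rfl⟩ := mem_map.1 hs
      exact hn t ht
  · rintro ⟨hx, hxB, hn⟩
    exact ⟨⟨x, hx⟩, mem_rest.2 ⟨mem_univ _, fun h => hxB (mem_map.2 ⟨_, h, rfl⟩),
      fun t ht => hn t.1 (mem_map.2 ⟨t, ht, rfl⟩)⟩, rfl⟩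

open Classical in
/-- The in-neighbours of `v` in `D[A]`. -/
noncomputable def inN {V : Type} (D : V → V → Prop) (A : Finset V) (v : V) : Finset V :=
  A.filter (fun x => D x v)

theorem sum_inN {V : Type} (D : V → V → Prop) (A : Finset V) :
    ∑ v ∈ A, (inN D A v).card = ∑ v ∈ A, (outN D A v).card := by
  classical
  simp only [inN, outN, Finset.card_filter]
  exact Finset.sum_comm

theorem in_add_out {V : Type} (D : V → V → Prop) (hD : ∀ u v, D u v → ¬ D v u)
    (A : Finset V) (v : V) (hv : v ∈ A) :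
    (inN D A v).card + (outN D A v).card + 1 ≤ A.card := by
  classical
  have h1 : Disjoint (inN D A v) (outN D A v) := by
    rw [Finset.disjoint_left]
    intro x hx hx'
    rw [inN, mem_filter] at hx
    rw [mem_outN] at hx'
    exact hD _ _ hx.2 hx'.2
  have h2 : inN D A v ∪ outN D A v ⊆ A.erase v := by
    intro x hx
    rw [mem_union, inN, mem_filter, mem_outN] at hx
    rw [mem_erase]
    have hvv : ¬ D v v := fun h => hD v v h h
    rcases hx with hx | hx
    · exact ⟨fun h => hvv (h ▸ hx.2), hx.1⟩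
    · exact ⟨fun h => hvv (h ▸ hx.2), hx.1⟩
  have h3 := Finset.card_le_card h2
  rw [Finset.card_union_of_disjoint h1, Finset.card_erase_of_mem hv] at h3
  have : 0 < A.card := Finset.card_pos.2 ⟨v, hv⟩
  omega

/-- Small cores of oriented graphs have a vertex as required. -/
theorem small_case {V : Type} (D : V → V → Prop) (hD : ∀ u v, D u v → ¬ D v u)
    (A : Finset V) (hne : A.Nonempty) (hcard : A.card ≤ 9)
    (hsize : ∀ v ∈ A, A.card ≤ 1 + ((outN D A v).card + 1).choose 2) :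
    ∃ v ∈ A, (outN D A v).card ≤ (secN D A v).card := by
  classical
  obtain ⟨v, hv, hmin⟩ := Finset.exists_min_image A (fun v => (outN D A v).card) hne
  refine ⟨v, hv, ?_⟩
  by_contra hcon
  push Not at hcon
  set d := (outN D A v).card with hd
  -- 2 d + 1 ≤ |A|
  have hpos : 0 < A.card := Finset.card_pos.2 hne
  have hout : A.card * d ≤ ∑ x ∈ A, (outN D A x).card := by
    have := Finset.card_nsmul_le_sum A (fun x => (outN D A x).card) d (fun x hx => hmin x hx)
    simpa using this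
  have hsum : ∑ x ∈ A, ((inN D A x).card + (outN D A x).card) ≤ A.card * (A.card - 1) := by
    have := Finset.sum_le_card_nsmul A (fun x => (inN D A x).card + (outN D A x).card)
      (A.card - 1) (fun x hx => by have := in_add_out D hD A x hx; omega)
    simpa using this
  rw [Finset.sum_add_distrib, sum_inN] at hsum
  have h2d : 2 * d + 1 ≤ A.card := by
    have h1 : A.card * (2 * d) ≤ A.card * (A.card - 1) := by nlinarith
    have := Nat.le_of_mul_le_mul_left h1 hpos
    omega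
  have hs := hsize v hv
  rw [← hd] at hs
  have hd4 : d ≤ 4 := by omega
  have hd0 : 0 < d := by omega
  have hAd : A.card = 2 * d + 1 := by
    interval_cases d <;> simp [Nat.choose] at hs <;> omega
  -- every in-degree is at least d
  have hin : ∀ x ∈ A, d ≤ (inN D A x).card := by
    by_contra hno
    push Not at hno
    obtain ⟨x0, hx0, hlt⟩ := hno
    have hle : ∀ x ∈ A, (inN D A x).card ≤ d := by
      intro x hx
      have h1 := in_add_out D hD A x hx
      have h2 := hmin x hx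
      omega
    have h3 : ∑ x ∈ A, (inN D A x).card < ∑ x ∈ A, d :=
      Finset.sum_lt_sum hle ⟨x0, hx0, hlt⟩
    rw [sum_inN] at h3
    simp only [Finset.sum_const, smul_eq_mul] at h3
    omega
  -- every vertex outside v, N⁺(v) is a second out-neighbour
  have hcov : A \ insert v (outN D A v) ⊆ secN D A v := by
    intro x hx
    rw [mem_sdiff, mem_insert, not_or, mem_outN] at hx
    obtain ⟨hxA, hxv, hxo⟩ := hx
    have hnvx : ¬ D v x := fun h => hxo ⟨hxA, h⟩
    rw [mem_secN]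
    refine ⟨hxA, hxv, hnvx, ?_⟩
    by_contra hno
    push Not at hno
    have h1 : inN D A x ⊆ A \ insert x (insert v (outN D A v)) := by
      intro y hy
      rw [inN, mem_filter] at hy
      rw [mem_sdiff, mem_insert, mem_insert, not_or, not_or]
      refine ⟨hy.1, fun h => ?_, fun h => ?_, fun h => ?_⟩
      · exact hD _ _ (h ▸ hy.2) (h ▸ hy.2)
      · exact hnvx (h ▸ hy.2)
      · exact hno y hy.1 (mem_outN.1 h).2 hy.2
    have h2 := Finset.card_le_card h1
    have hvo : v ∉ outN D A v := by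
      rw [mem_outN]; exact fun h => hD _ _ h.2 h.2
    have h3 : (insert x (insert v (outN D A v))).card = d + 2 := by
      rw [Finset.card_insert_of_notMem, Finset.card_insert_of_notMem hvo]
      rw [mem_insert, not_or, mem_outN]
      exact ⟨hxv, hxo⟩
    have h4 : insert x (insert v (outN D A v)) ⊆ A := by
      intro y hy
      rw [mem_insert, mem_insert, mem_outN] at hy
      rcases hy with h | h | h
      · exact h ▸ hxA
      · exact h ▸ hv
      · exact h.1
    rw [Finset.card_sdiff_of_subset h4, h3, hAd] at h2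
    have h5 := hin x hxA
    omega
  have h6 := Finset.card_le_card hcov
  have hvo : v ∉ outN D A v := by
    rw [mem_outN]; exact fun h => hD _ _ h.2 h.2
  have h7 : insert v (outN D A v) ⊆ A := by
    intro y hy
    rw [mem_insert, mem_outN] at hy
    rcases hy with h | h
    · exact h ▸ hv
    · exact h.1
  rw [Finset.card_sdiff_of_subset h7, Finset.card_insert_of_notMem hvo, ← hd, hAd] at h6
  omega

theorem result :
    (∀ k : ℕ,
      (∀ (V : Type) [Fintype V] [Nonempty V] (D : V → V → Prop), (∀ u v, D u v → ¬ D v u) →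
        Fintype.card V ≤ 1 + (k + 1).choose 2 →
        (∀ B : Finset V, B.Nonempty → (rest D univ B).card ≤ (bdry D univ B).card.choose 2) →
        ∃ v, (outN D univ v).card ≤ (secN D univ v).card) →
      ∀ (V : Type) [Fintype V] (D : V → V → Prop), (∀ u v, D u v → ¬ D v u) →
        (∃ v, (outN D univ v).card ≤ k) → ∃ v, (outN D univ v).card ≤ (secN D univ v).card) ∧
    (∀ (V : Type) [Fintype V] (D : V → V → Prop) (k : ℕ), (∀ u v, D u v → ¬ D v u) →
      (∃ v, (outN D univ v).card ≤ k) →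
      (∀ X : Finset V, 10 ≤ X.card → X.card ≤ 1 + (k + 1).choose 2 →
        ∃ B ⊆ X, B.Nonempty ∧ (bdry D X B).card.choose 2 < (rest D X B).card) →
      ∃ v, (outN D univ v).card ≤ (secN D univ v).card) ∧
    (∀ (V : Type) [Fintype V] (D : V → V → Prop) (w : V → ℕ) (v : V),
      ∃ A : Finset V, A.Nonempty ∧
        ∑ x ∈ A, w x ≤ w v + (∑ x ∈ outN D univ v, w x + 1).choose 2 ∧
        (∀ x ∈ A, ∑ y ∈ secN D A x, w y + ∑ y ∈ outN D univ x, w y
            ≤ ∑ y ∈ secN D univ x, w y + ∑ y ∈ outN D A x, w y) ∧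
        (∀ B ⊆ A, B.Nonempty → B ≠ A →
          ∃ W ⊆ bdry D A B, ∑ x ∈ fresh D A B W, w x < ∑ x ∈ W, w x) ∧
        (∀ B ⊆ A, B.Nonempty → ∑ x ∈ rest D A B, w x ≤ (∑ x ∈ bdry D A B, w x).choose 2) ∧
        (∀ x ∈ A, ∑ y ∈ A, w y ≤ w x + (∑ y ∈ outN D A x, w y + 1).choose 2)) ∧
    (∀ (V : Type) [Fintype V] (D : V → V → Prop) (w : V → ℝ) (g : ℝ) (v : V),
      (∀ x, 0 ≤ w x) → 0 ≤ g → g < 1 →
      ∃ A : Finset V, A.Nonempty ∧
        (1 - g) * (∑ x ∈ A, w x - w v) ≤ ∑ x ∈ outN D univ v, w x ∧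
        (∀ x ∈ A, ∑ y ∈ secN D A x, w y - g * ∑ y ∈ outN D A x, w y
            ≤ ∑ y ∈ secN D univ x, w y - g * ∑ y ∈ outN D univ x, w y) ∧
        (∀ B ⊆ A, B.Nonempty → B ≠ A →
          ∃ W ⊆ bdry D A B, ∑ x ∈ fresh D A B W, w x < g * ∑ x ∈ W, w x) ∧
        (∀ B ⊆ A, B.Nonempty → B ≠ A →
          (1 - g) * ∑ x ∈ rest D A B, w x < g * ∑ x ∈ bdry D A B, w x) ∧
        (∀ x ∈ A, A ≠ {x} → (1 - g) * (∑ y ∈ A, w y - w x) < ∑ y ∈ outN D A x, w y)) := by
  classical
  refine ⟨?_, ?_, fun V _ D w v => core_one D w v,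
    fun V _ D w g v hw hg0 hg => core_lt_one D w g v hw hg0 hg⟩
  · intro k hk V _ D hD hv
    obtain ⟨v, hv⟩ := hv
    obtain ⟨A, hAne, hsz0, htr, _, hiso, _⟩ := core_one D (fun _ => 1) v
    simp only [Finset.sum_const, smul_eq_mul, mul_one] at htr hsz0 hiso
    have hmono : ((outN D univ v).card + 1).choose 2 ≤ (k + 1).choose 2 :=
      Nat.choose_le_choose 2 (by omega)
    have : Nonempty {x // x ∈ A} := ⟨⟨hAne.choose, hAne.choose_spec⟩⟩
    obtain ⟨a, ha⟩ := hk {x // x ∈ A} (fun p q => D p.1 q.1) (fun p q h => hD _ _ h)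
      (by rw [Fintype.card_coe]; omega)
      (fun B hB => by
        rw [card_rest_sub, card_bdry_sub]
        refine hiso _ ?_ (by simpa using hB)
        intro x hx
        obtain ⟨y, _, rfl⟩ := mem_map.1 hx
        exact y.2)
    rw [card_outN_sub, card_secN_sub] at ha
    have := htr a.1 a.2
    exact ⟨a.1, by omega⟩
  · intro V _ D k hD hv hX
    obtain ⟨v, hv⟩ := hv
    obtain ⟨A, hAne, hsz0, htr, _, hiso, hsz⟩ := core_one D (fun _ => 1) v
    simp only [Finset.sum_const, smul_eq_mul, mul_one] at htr hsz hsz0 hiso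
    have hmono : ((outN D univ v).card + 1).choose 2 ≤ (k + 1).choose 2 :=
      Nat.choose_le_choose 2 (by omega)
    have h9 : A.card ≤ 9 := by
      by_contra h
      push Not at h
      obtain ⟨B, hBA, hBne, hlt⟩ := hX A h (by omega)
      exact absurd (hiso B hBA hBne) (not_le.2 hlt)
    obtain ⟨x, hx, hle⟩ := small_case D hD A hAne h9 hsz
    have := htr x hx
    exact ⟨x, by omega⟩

end Pool.Agent.Results.MP_5d193c_co.SmallCores
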